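import Pool.Agent.H12.UT.Fin3

/-!
# A universal torsor with a rational point which is not stably rational
-/

namespace Pool.Agent.H12.Kept.TorsorNotStablyRational

open Polynomial
open Pool.Agent.H12.UT

/-- Over `K = ℚ(x, y, z, t)` let `X` be the conic bundle surface `Y ^ 2 = P(s) Z ^ 2 + Q(s) T ^ 2`,
`P = 2 (1 - t) s (s - t) (s + 1)`, `Q = a ((2 z ^ 2 + 1) s + t) ((2 a b d - 1) s + t)`, `a = x ^ 2 + 1`,
`b = y ^ 2 + 1`, `d = z ^ 2 + 1`. It has exactly six degenerate geometric fibres, all over rational points
and none of them split, and a `K`-point over `s = 1`. The function field of the variety of the equations of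
Colliot-Thelene and Sansuc for the universal torsor with a `K`-point over this `K`-point is not stably
rational over `K`. -/
theorem result : ∃ (K : Type) (_ : Field K) (_ : Algebra ℚ K) (x y z t : K),
    AlgebraicIndependent ℚ ![x, y, z, t] ∧ IntermediateField.adjoin ℚ {x, y, z, t} = ⊤ ∧
    ConicBundle (PP t) (QQ x y z t) 1 ∧ NotSR (PP t) (QQ x y z t) 1 :=
  final3

end Pool.Agent.H12.Kept.TorsorNotStablyRational
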